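import Pool.Agent.Y546.WQ.Stm5
import Pool.Agent.Y546.WQ.Wie
import Pool.Agent.Y546.WQ.Pal

/-!
# Project TJ: step FIN4, the contradiction modulo four
-/

set_option autoImplicit false

namespace Pool.Agent.Y179.WQ

open NumberField IsDedekindDomain Polynomial Pool.Agent.Y546.WQ

section

variable {p : ℕ} [Fact p.Prime] {C : Type} [Field C] [NumberField C]

theorem rs_coe4 (c : Cyc p C) (t : (ZMod p)ˣ) (x : 𝓞 C) :
    ((rs c t x : 𝓞 C) : C) = c.σ t x := rfl

theorem rs_mul4 (c : Cyc p C) (s t : (ZMod p)ˣ) (x : 𝓞 C) :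
    rs c (s * t) x = rs c s (rs c t x) := by
  apply RingOfIntegers.coe_injective
  show c.σ (s * t) (x : C) = c.σ s (c.σ t (x : C))
  rw [map_mul]
  rfl

theorem rs_w (c : Cyc p C) (w : 𝓞 C) (hw : (w : C) = c.z) (t : (ZMod p)ˣ) :
    rs c t w = w ^ (t : ZMod p).val := by
  apply RingOfIntegers.coe_injective
  rw [map_pow]
  show c.σ t (w : C) = (w : C) ^ _
  rw [hw, c.σ_z]

/-- the number of solutions of `t ^ q = 1` is odd -/
theorem odd_H (q : ℕ) (hq : Odd q) :
    Odd (Finset.univ.filter (fun t : (ZMod p)ˣ => t ^ q = 1)).card := by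
  rw [← Nat.not_even_iff_odd]
  intro he
  let K : Subgroup (ZMod p)ˣ := (powMonoidHom q : (ZMod p)ˣ →* (ZMod p)ˣ).ker
  have hK : Nat.card K = (Finset.univ.filter (fun t : (ZMod p)ˣ => t ^ q = 1)).card := by
    rw [Nat.card_eq_fintype_card, ← Fintype.card_coe]
    apply Fintype.card_congr
    refine Equiv.subtypeEquivRight ?_
    intro t
    simp [K, MonoidHom.mem_ker]
  have : Fact (Nat.Prime 2) := ⟨Nat.prime_two⟩
  obtain ⟨x, hx⟩ := exists_prime_orderOf_dvd_card' (G := K) 2 (by rw [hK]; exact he.two_dvd)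
  have h1 : x ^ q = 1 := by
    apply Subtype.ext
    have := x.2
    rw [MonoidHom.mem_ker] at this
    simpa using this
  have h2 := orderOf_dvd_of_pow_eq_one h1
  rw [hx] at h2
  rcases hq with ⟨k, hk⟩
  omega

/-- splitting of the product -/
theorem prod_G (hp2 : p ≠ 2) (q : ℕ) (hq : Odd q) {M : Type*} [CommMonoid M] (F : (ZMod p)ˣ → M) :
    ∏ t ∈ Finset.univ.filter (fun t : (ZMod p)ˣ => t ^ (2 * q) = 1), F t =
      ∏ t ∈ Finset.univ.filter (fun t : (ZMod p)ˣ => t ^ q = 1), (F t * F (t * (-1))) := by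
  have hpp : p.Prime := Fact.out
  have hne : (-1 : (ZMod p)ˣ) ≠ 1 := by
    intro h
    have h1 := congrArg (fun u : (ZMod p)ˣ => (u : ZMod p)) h
    simp only [Units.val_neg, Units.val_one] at h1
    have : Fact (2 < p) := ⟨lt_of_le_of_ne hpp.two_le (Ne.symm hp2)⟩
    exact ZMod.neg_one_ne_one h1
  rw [← Finset.prod_filter_mul_prod_filter_not _ (fun t : (ZMod p)ˣ => t ^ q = 1),
    Finset.prod_mul_distrib]
  congr 1
  · apply Finset.prod_congr _ (fun _ _ => rfl)
    ext t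
    simp only [Finset.mem_filter, Finset.mem_univ, true_and]
    constructor
    · exact fun h => h.2
    · intro h
      exact ⟨by rw [mul_comm, pow_mul, h, one_pow], h⟩
  · refine Finset.prod_bij' (fun t _ => t * (-1)) (fun t _ => t * (-1)) ?_ ?_ ?_ ?_ ?_
    · intro t ht
      simp only [Finset.mem_filter, Finset.mem_univ, true_and] at ht ⊢
      have h1 : (t ^ q) * (t ^ q) = 1 := by
        rw [← pow_add, ← two_mul]
        exact ht.1
      have h2 : t ^ q = 1 ∨ t ^ q = -1 := by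
        have h3 : ((t ^ q : (ZMod p)ˣ) : ZMod p) * ((t ^ q : (ZMod p)ˣ) : ZMod p) = 1 := by
          rw [← Units.val_mul, h1, Units.val_one]
        rcases mul_self_eq_one_iff.1 h3 with h4 | h4
        · left; exact Units.ext h4
        · right; exact Units.ext (by rw [h4]; simp)
      rcases h2 with h2 | h2
      · exact absurd h2 ht.2
      · rw [mul_pow, h2, hq.neg_one_pow]
        simp
    · intro t ht
      simp only [Finset.mem_filter, Finset.mem_univ, true_and] at ht ⊢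
      refine ⟨?_, ?_⟩
      · rw [mul_comm 2 q, pow_mul, mul_pow, ht, hq.neg_one_pow]
        simp
      · rw [mul_pow, ht, hq.neg_one_pow, one_mul]
        exact hne
    · intro t _
      simp
    · intro t _
      simp
    · intro t _
      simp

end

theorem mainFIN4 : S_FIN4 := by
  intro p _ hp2 s q hq hs E _ _ c f S m b hdeg hfS hP β hβ
  have hpp : p.Prime := Fact.out
  obtain ⟨w, hwz, hw⟩ := exists_zint c
  have hw1 : w ^ p = 1 := hw.pow_eq_one
  have hodd : Odd p := hpp.odd_of_ne_two hp2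
  have hα : ((aeval w f : 𝓞 E) : E) = aeval c.z f := by
    have hwz' : algebraMap (𝓞 E) E w = c.z := hwz
    rw [← hwz']
    exact (aeval_algebraMap_apply E w f).symm
  set α : 𝓞 E := aeval w f with hαd
  -- the conjugate of α
  set w' : 𝓞 E := rs c (-1) w with hw'
  have hw'e : w' = w ^ (p - 1) := by
    rw [hw', rs_w c w hwz]
    congr 1
    have hp1 : 1 < p := hpp.one_lt
    have : NeZero p := ⟨hpp.ne_zero⟩
    rw [Units.val_neg, Units.val_one, ZMod.neg_val]
    have : Fact (1 < p) := ⟨hp1⟩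
    rw [if_neg one_ne_zero, ZMod.val_one]
  have hww : w * w' = 1 := by
    rw [hw'e, ← pow_succ', Nat.sub_add_cancel hpp.one_lt.le, hw1]
  have hα' : rs c (-1) α = aeval w' f := by
    rw [hαd, hw']
    exact (hom_eval₂ f (algebraMap ℤ (𝓞 E)) ((rs c (-1) : 𝓞 E ≃+* 𝓞 E) : 𝓞 E →+* 𝓞 E) w).trans
      (by
        have : (((rs c (-1) : 𝓞 E ≃+* 𝓞 E) : 𝓞 E →+* 𝓞 E)).comp (algebraMap ℤ (𝓞 E)) =
          algebraMap ℤ (𝓞 E) := RingHom.ext_int _ _
        rw [this]
        rfl)
  have href : aeval w (f.reflect m) * w' ^ m = aeval w' f := by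
    let _ : Invertible w' := ⟨w, hww, by rw [mul_comm]; exact hww⟩
    have := eval₂_reflect_mul_pow (algebraMap ℤ (𝓞 E)) w' m f hdeg
    exact this
  have hrel : w ^ b * α = - aeval w (f.reflect m) + 4 * aeval w S := by
    have h4m : aeval w (4 : ℤ[X]) = 4 := map_ofNat _ 4
    have := congrArg (aeval w) hfS
    simpa [h4m] using this
  set k : ℕ := b + (p - 1) * m with hk
  set δ0 : 𝓞 E := aeval w S * w' ^ m with hδ0
  have hneg : rs c (-1) α = -(w ^ k) * α + 4 * δ0 := by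
    have h1 : w' ^ m = w ^ ((p - 1) * m) := by rw [hw'e, pow_mul]
    rw [hα', ← href, hδ0, hk, pow_add, ← h1]
    linear_combination (w' ^ m) * hrel
  set H := Finset.univ.filter (fun t : (ZMod p)ˣ => t ^ q = 1) with hH
  have hHodd : Odd H.card := odd_H q hq
  set γ : 𝓞 E := ∏ t ∈ H, rs c t α with hγ
  set j : ℕ := ∑ t ∈ H, (t : ZMod p).val * k with hj
  -- the product modulo four
  obtain ⟨δ, hδ⟩ : ∃ δ : 𝓞 E, ∏ t ∈ Finset.univ.filter
      (fun t : (ZMod p)ˣ => t ^ (2 * q) = 1), rs c t α = -(w ^ j * γ ^ 2) + 4 * δ := by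
    rw [prod_G hp2 q hq (fun t => rs c t α)]
    have h1 : ∀ t ∈ H, Ideal.Quotient.mk (Ideal.span {(4 : 𝓞 E)}) (rs c t α * rs c (t * (-1)) α) =
        Ideal.Quotient.mk (Ideal.span {(4 : 𝓞 E)})
          ((-1) * (w ^ ((t : ZMod p).val * k)) * (rs c t α) ^ 2) := by
      intro t _
      rw [Ideal.Quotient.eq, Ideal.mem_span_singleton]
      refine ⟨rs c t α * rs c t δ0, ?_⟩
      rw [rs_mul4, hneg]
      simp only [map_add, map_mul, map_neg, map_pow, map_ofNat]
      rw [rs_w c w hwz t, ← pow_mul]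
      ring
    have h2 : Ideal.Quotient.mk (Ideal.span {(4 : 𝓞 E)})
        (∏ t ∈ H, (rs c t α * rs c (t * (-1)) α)) =
        Ideal.Quotient.mk (Ideal.span {(4 : 𝓞 E)}) (-(w ^ j * γ ^ 2)) := by
      rw [map_prod, Finset.prod_congr rfl h1, ← map_prod]
      congr 1
      rw [Finset.prod_mul_distrib, Finset.prod_mul_distrib, Finset.prod_const,
        hHodd.neg_one_pow, Finset.prod_pow, Finset.prod_pow_eq_pow_sum, hj, hγ]
      ring
    rw [Ideal.Quotient.eq, Ideal.mem_span_singleton] at h2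
    obtain ⟨δ, hδ⟩ := h2
    exact ⟨δ, by linear_combination hδ⟩
  -- β is integral
  have hB2 : algebraMap (𝓞 E) E
      (∏ t ∈ Finset.univ.filter (fun t : (ZMod p)ˣ => t ^ (2 * q) = 1), rs c t α) = β ^ 2 := by
    rw [← hβ, map_prod]
    refine Finset.prod_congr rfl ?_
    intro t _
    rw [← hα]
    rfl
  have hβi : IsIntegral ℤ β := by
    apply IsIntegral.of_pow (n := 2) (by norm_num)
    rw [← hB2]
    exact RingOfIntegers.isIntegral_coe _
  obtain ⟨β', hβ'⟩ : ∃ β' : 𝓞 E, (β' : E) = β := ⟨⟨β, hβi⟩, rfl⟩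
  have hsq : β' ^ 2 = -(w ^ j * γ ^ 2) + 4 * δ := by
    rw [← hδ]
    apply RingOfIntegers.coe_injective
    rw [hB2, map_pow]
    show (β' : E) ^ 2 = β ^ 2
    rw [hβ']
  obtain ⟨h, hh⟩ : ∃ h, p + 1 = 2 * h := by
    rcases hodd with ⟨u, hu⟩
    exact ⟨u + 1, by omega⟩
  set η : 𝓞 E := w ^ (h * j) with hη
  have hη2 : η ^ 2 = w ^ j := by
    rw [hη, ← pow_mul]
    have : h * j * 2 = p * j + j := by
      have : h * j * 2 = (p + 1) * j := by rw [hh]; ring
      rw [this]; ring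
    rw [this, pow_add, pow_mul, hw1, one_pow, one_mul]
  have hmain : β' ^ 2 + (η * γ) ^ 2 = 4 * δ := by
    rw [mul_pow, hη2, hsq]
    ring
  -- a prime above two
  obtain ⟨P, hPp, hP2⟩ := exists_above (K := E) 2 Nat.prime_two
  have := hPp
  have h2 : (2 : 𝓞 E) ∈ P := by exact_mod_cast hP2
  have hPbot : P ≠ ⊥ := by
    rintro rfl
    rw [Ideal.mem_bot] at h2
    exact two_ne_zero h2
  have hP22 : (2 : 𝓞 E) ∉ P ^ 2 := by
    have := c.unram ⟨P, hPp, hPbot⟩ 2 Nat.prime_two (Ne.symm hp2) hP2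
    exact_mod_cast this
  have hwP : w ∉ P := by
    intro h
    exact one_notMem P hPp (hww ▸ P.mul_mem_right _ h)
  have hσP : ∀ t, rs c t α ∉ P := by
    intro t ht
    have hc : (P.comap ((rs c t : 𝓞 E ≃+* 𝓞 E) : 𝓞 E →+* 𝓞 E)).IsPrime := hPp.comap _
    refine hP _ hc ?_ α hα ?_
    · rw [Ideal.mem_comap, map_ofNat]
      exact h2
    · rw [Ideal.mem_comap]
      exact ht
  have hγP : η * γ ∉ P := by
    intro h
    rcases hPp.mem_or_mem h with h | h
    · exact hwP (hPp.mem_of_pow_mem _ h)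
    · rw [hγ] at h
      obtain ⟨t, _, ht⟩ := (hPp.prod_mem_iff).1 h
      exact hσP t ht
  have h4 : (4 : 𝓞 E) = 2 * 2 := by norm_num
  have h5 : (β' + η * γ) ^ 2 ∈ P := by
    have : (β' + η * γ) ^ 2 = 2 * (2 * δ + β' * (η * γ)) := by
      linear_combination hmain
    rw [this]
    exact P.mul_mem_right _ h2
  have h6 : β' + η * γ ∈ P := hPp.mem_of_pow_mem _ h5
  have h7 : (β' + η * γ) ^ 2 ∈ P ^ 2 := Ideal.pow_mem_pow h6 2
  have h8 : (β' * (η * γ)) * 2 ∈ P ^ 2 := by
    have h9 : (β' * (η * γ)) * 2 = (β' + η * γ) ^ 2 - (2 * 2) * δ := by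
      linear_combination -hmain
    rw [h9]
    apply Ideal.sub_mem _ h7
    apply Ideal.mul_mem_right
    rw [pow_two]
    exact Ideal.mul_mem_mul h2 h2
  rcases Ideal.IsPrime.mul_mem_pow P h8 with h9 | h9
  · rcases hPp.mem_or_mem h9 with h10 | h10
    · exact hγP ((Ideal.add_mem_iff_right P h10).1 h6)
    · exact hγP h10
  · exact hP22 h9

end Pool.Agent.Y179.WQ
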